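import Mathlib
import Pool.Agent.Helper543.Melchior

/-!
Four-rich lines of planar sets without five collinear points: `14 t₄ + 6 ≤ n (n - 1)`
(double counting of pairs together with Melchior's inequality).
-/

namespace Pool.Agent.FR624

open Finset Pool.Agent.Helper543.Melchior

noncomputable section

open scoped Classical

/-- `n² - n = ∑ |M|² - |M|` over the determined lines -/
lemma pair_count (S : Finset Pt) :
    S.card * S.card - S.card = ∑ M ∈ lines S, (M.card * M.card - M.card) := by
  have h := Finset.card_eq_sum_card_image (fun ab : Pt × Pt => lineOf S ab.1 ab.2) S.offDiag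
  rw [offDiag_card] at h
  rw [h]
  refine Finset.sum_congr rfl fun M hM => ?_
  have hfib : (S.offDiag.filter fun ab => lineOf S ab.1 ab.2 = M) = M.offDiag := by
    ext ⟨a, b⟩
    simp only [mem_filter, mem_offDiag]
    constructor
    · rintro ⟨⟨ha, hb, hab⟩, rfl⟩
      exact ⟨mem_lineOf.2 ⟨ha, cr_self_left a b⟩, mem_lineOf.2 ⟨hb, cr_self_right a b⟩, hab⟩
    · rintro ⟨ha, hb, hab⟩
      have hM' : M ∈ lines S := hM
      have hs := line_subset hM'
      exact ⟨⟨hs ha, hs hb, hab⟩, (eq_lineOf hM' ha hb hab).symm⟩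
  rw [hfib, offDiag_card]

/-- the main inequality in terms of `lines S` -/
lemma four_rich {S : Finset Pt} (hS : ∃ a ∈ S, ∃ b ∈ S, ∃ c ∈ S, cr a b c ≠ 0)
    (h4 : ∀ M ∈ lines S, M.card ≤ 4) :
    14 * ((lines S).filter fun M => M.card = 4).card + 6 ≤ S.card * S.card - S.card := by
  have hm := melchior hS
  have h2 : ∀ M ∈ lines S, 2 ≤ M.card := by
    intro M hM
    obtain ⟨a, ha, b, hb, hab⟩ := exists_two hM
    exact Finset.one_lt_card.2 ⟨a, ha, b, hb, hab⟩
  rw [pair_count]
  have hterm : ∀ M ∈ lines S, 6 + 14 * (if M.card = 4 then 1 else 0)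
      ≤ (M.card * M.card - M.card) + 2 * M.card := by
    intro M hM
    have h1 := h2 M hM
    have h3 := h4 M hM
    interval_cases M.card <;> simp
  have hsum := Finset.sum_le_sum hterm
  rw [Finset.sum_add_distrib, Finset.sum_add_distrib, ← Finset.mul_sum, ← Finset.mul_sum,
    Finset.sum_const, smul_eq_mul] at hsum
  rw [Finset.card_filter]
  omega

end

end Pool.Agent.FR624
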