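import Mathlib
import Pool.Agent.FR624.Core

/-!
Transfer of the four-rich line bound to `EuclideanSpace ℝ (Fin 2)` and Mathlib's `Collinear`.
-/

namespace Pool.Agent.FR624

open Finset Pool.Agent.Helper543.Melchior

noncomputable section

open scoped Classical

abbrev E2 := EuclideanSpace ℝ (Fin 2)

def phi (x : E2) : Pt := (x 0, x 1)

lemma phi_inj : Function.Injective phi := by
  intro x y h
  simp only [phi, Prod.mk.injEq] at h
  ext i
  fin_cases i
  · exact h.1
  · exact h.2

lemma cr_of_collinear {T : Set E2} (hT : Collinear ℝ T) {a b x : E2} (ha : a ∈ T) (hb : b ∈ T)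
    (hx : x ∈ T) : cr (phi a) (phi b) (phi x) = 0 := by
  rw [collinear_iff_of_mem ha] at hT
  obtain ⟨v, hv⟩ := hT
  obtain ⟨r, rfl⟩ := hv b hb
  obtain ⟨s, rfl⟩ := hv x hx
  simp [cr, phi]
  ring

lemma collinear_of_cr {T : Set E2} {a b : E2} (hab : a ≠ b)
    (h : ∀ x ∈ T, cr (phi a) (phi b) (phi x) = 0) : Collinear ℝ T := by
  rw [collinear_iff_exists_forall_eq_smul_vadd]
  refine ⟨a, b - a, fun x hx => ?_⟩
  obtain ⟨s, h1, h2⟩ := exists_param (fun hh => hab (phi_inj hh)) (h x hx)
  refine ⟨s, ?_⟩
  ext i
  fin_cases i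
  · simp [phi] at h1 ⊢
    linarith
  · simp [phi] at h2 ⊢
    linarith

/-- **Main bound.** If no five points of `A` are collinear and `|A| ≥ 5`, then the number `t₄` of
collinear 4-subsets satisfies `14 t₄ + 6 ≤ n (n - 1)`. -/
theorem main_bound (A : Finset E2) (h5 : 5 ≤ A.card)
    (hA : ∀ T ⊆ A, T.card = 5 → ¬ Collinear ℝ (T : Set E2)) :
    14 * ((A.powersetCard 4).filter fun T : Finset E2 => Collinear ℝ (T : Set E2)).card + 6
      ≤ A.card * A.card - A.card := by
  set S : Finset Pt := A.image phi with hS
  have hcard : S.card = A.card := card_image_of_injective _ phi_inj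
  -- no collinear subset has five points
  have hbig : ∀ T ⊆ A, Collinear ℝ (T : Set E2) → T.card ≤ 4 := by
    intro T hTA hT
    by_contra hlt
    obtain ⟨U, hU, hU5⟩ := exists_subset_card_eq (show 5 ≤ T.card by omega)
    exact hA U (hU.trans hTA) hU5 (hT.subset (by exact_mod_cast hU))
  -- noncollinear
  have hnc : ∃ a ∈ S, ∃ b ∈ S, ∃ c ∈ S, cr a b c ≠ 0 := by
    obtain ⟨a, ha, b, hb, hab⟩ := one_lt_card.1 (show 1 < A.card by omega)
    by_contra hcon
    push Not at hcon
    have : Collinear ℝ (A : Set E2) := collinear_of_cr hab fun x hx =>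
      hcon _ (mem_image_of_mem _ ha) _ (mem_image_of_mem _ hb) _ (mem_image_of_mem _ hx)
    have := hbig A (subset_refl _) this
    omega
  -- determined lines have at most four points
  have h4 : ∀ M ∈ lines S, M.card ≤ 4 := by
    intro M hM
    obtain ⟨a, ha, b, hb, hab⟩ := exists_two hM
    have hMS := line_subset hM
    set T := A.filter fun x => phi x ∈ M with hT
    have himg : T.image phi = M := by
      ext y
      simp only [hT, mem_image, mem_filter]
      constructor
      · rintro ⟨x, ⟨_, hx⟩, rfl⟩; exact hx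
      · intro hy
        obtain ⟨x, hx, rfl⟩ := mem_image.1 (hMS hy)
        exact ⟨x, ⟨hx, hy⟩, rfl⟩
    obtain ⟨a', ha', rfl⟩ := mem_image.1 (hMS ha)
    obtain ⟨b', hb', rfl⟩ := mem_image.1 (hMS hb)
    have hab' : a' ≠ b' := fun h => hab (by rw [h])
    have hcol : Collinear ℝ (T : Set E2) := by
      refine collinear_of_cr hab' fun x hx => ?_
      have hxT : x ∈ T := by exact_mod_cast hx
      have hxM : phi x ∈ M := (mem_filter.1 hxT).2
      rw [eq_lineOf hM ha hb hab] at hxM
      exact (mem_lineOf.1 hxM).2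
    have := hbig T (filter_subset _ _) hcol
    rw [← himg, card_image_of_injective _ phi_inj]
    exact this
  have hmain := four_rich hnc h4
  rw [hcard] at hmain
  -- injection
  have hinj : ((A.powersetCard 4).filter fun T : Finset E2 => Collinear ℝ (T : Set E2)).card
      ≤ ((lines S).filter fun M => M.card = 4).card := by
    refine card_le_card_of_injOn (fun T : Finset E2 => Finset.image phi T) ?_ ?_
    · intro T hT
      obtain ⟨h1, hTc⟩ := mem_filter.1 (mem_coe.1 hT)
      obtain ⟨hTA, hT4⟩ := mem_powersetCard.1 h1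
      refine mem_coe.2 (mem_filter.2 ?_)
      have hc4 : (T.image phi).card = 4 := by
        rw [card_image_of_injective _ phi_inj, hT4]
      refine ⟨?_, hc4⟩
      obtain ⟨a, ha, b, hb, hab⟩ := one_lt_card.1 (show 1 < T.card by omega)
      have hab' : phi a ≠ phi b := fun h => hab (phi_inj h)
      have hL := lineOf_mem_lines (S := S) (mem_image_of_mem phi (hTA ha))
        (mem_image_of_mem phi (hTA hb)) hab'
      have hsub : T.image phi ⊆ lineOf S (phi a) (phi b) := by
        intro y hy
        obtain ⟨x, hx, rfl⟩ := mem_image.1 hy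
        exact mem_lineOf.2 ⟨mem_image_of_mem _ (hTA hx), cr_of_collinear hTc ha hb hx⟩
      have heq := eq_of_subset_of_card_le hsub (by rw [hc4]; exact h4 _ hL)
      show image phi T ∈ lines S
      rw [heq]
      exact hL
    · intro T _ U _ hTU
      exact image_injective phi_inj hTU
  omega

end

end Pool.Agent.FR624
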