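import Mathlib
import Pool.Agent.FR624.Plane

/-!
The four-rich line bound in terms of lines (one-dimensional affine subspaces).
-/

namespace Pool.Agent.FR624

open Finset

noncomputable section

open scoped Classical

/-- a line of the Euclidean plane -/
def IsLine (l : AffineSubspace ℝ E2) : Prop := (l : Set E2).Nonempty ∧ Module.finrank ℝ l.direction = 1

/-- the lines containing exactly `i` points of `P` -/
def richLines (i : ℕ) (P : Finset E2) : Set (AffineSubspace ℝ E2) :=
  {l | IsLine l ∧ (P.filter fun x => x ∈ l).card = i}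

/-- no line contains five or more points of `P` -/
def FiveFree (P : Finset E2) : Prop := ∀ l, IsLine l → (P.filter fun x => x ∈ l).card ≤ 4

lemma collinear_line {l : AffineSubspace ℝ E2} (hl : IsLine l) (P : Finset E2) :
    Collinear ℝ ((P.filter fun x => x ∈ l : Finset E2) : Set E2) := by
  have h1 : Collinear ℝ (l : Set E2) := by
    rw [collinear_iff_finrank_le_one]
    have : vectorSpan ℝ (l : Set E2) = l.direction := by
      rw [AffineSubspace.direction]
    rw [this, hl.2]
  refine h1.subset ?_
  intro x hx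
  exact (mem_filter.1 (mem_coe.1 hx)).2

lemma isLine_affineSpan {a b : E2} (hab : a ≠ b) : IsLine (affineSpan ℝ {a, b}) := by
  refine ⟨⟨a, left_mem_affineSpan_pair ℝ a b⟩, ?_⟩
  rw [direction_affineSpan, vectorSpan_pair]
  exact finrank_span_singleton (sub_ne_zero.2 hab)

lemma line_unique {l m : AffineSubspace ℝ E2} (hl : IsLine l) (hm : IsLine m) {a b : E2}
    (hab : a ≠ b) (hal : a ∈ l) (hbl : b ∈ l) (ham : a ∈ m) (hbm : b ∈ m) : l = m := by
  have key : ∀ {k : AffineSubspace ℝ E2}, IsLine k → a ∈ k → b ∈ k → affineSpan ℝ {a, b} = k := by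
    intro k hk ha hb
    have hle : affineSpan ℝ {a, b} ≤ k := by
      rw [affineSpan_le]
      intro x hx
      rcases hx with rfl | rfl
      · exact ha
      · exact hb
    have hdir : (affineSpan ℝ {a, b}).direction = k.direction := by
      refine Submodule.eq_of_le_of_finrank_eq (AffineSubspace.direction_le hle) ?_
      rw [(isLine_affineSpan hab).2, hk.2]
    exact AffineSubspace.eq_of_direction_eq_of_nonempty_of_le hdir
      ⟨a, left_mem_affineSpan_pair ℝ a b⟩ hle
  rw [← key hl hal hbl, ← key hm ham hbm]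

theorem rich_bound (P : Finset E2) (h5 : 5 ≤ P.card) (hP : FiveFree P) :
    14 * (richLines 4 P).ncard + 6 ≤ P.card * P.card - P.card := by
  have hA : ∀ T ⊆ P, T.card = 5 → ¬ Collinear ℝ (T : Set E2) := by
    intro T hT hT5 hcol
    obtain ⟨a, ha, b, hb, hab⟩ := one_lt_card.1 (show 1 < T.card by omega)
    have h := hP _ (isLine_affineSpan hab)
    have hsub : T ⊆ P.filter fun x => x ∈ affineSpan ℝ {a, b} := by
      intro x hx
      rw [mem_filter]
      refine ⟨hT hx, ?_⟩
      exact hcol.mem_affineSpan_of_mem_of_ne (mem_coe.2 ha) (mem_coe.2 hb) (mem_coe.2 hx) hab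
    have := card_le_card hsub
    omega
  have hmain := main_bound P h5 hA
  have hinj : (richLines 4 P).ncard
      ≤ ((P.powersetCard 4).filter fun T : Finset E2 => Collinear ℝ (T : Set E2)).card := by
    rw [← Set.ncard_coe_finset]
    refine Set.ncard_le_ncard_of_injOn (fun l => P.filter fun x => x ∈ l) ?_ ?_ (Finset.finite_toSet _)
    · rintro l ⟨hl, h4⟩
      rw [mem_coe, mem_filter, mem_powersetCard]
      exact ⟨⟨filter_subset _ _, h4⟩, collinear_line hl P⟩
    · rintro l ⟨hl, hl4⟩ m ⟨hm, hm4⟩ hlm
      simp only at hlm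
      obtain ⟨a, ha, b, hb, hab⟩ := one_lt_card.1
        (show 1 < (P.filter fun x => x ∈ l).card by omega)
      have ha' : a ∈ P.filter fun x => x ∈ m := hlm ▸ ha
      have hb' : b ∈ P.filter fun x => x ∈ m := hlm ▸ hb
      exact line_unique hl hm hab (mem_filter.1 ha).2 (mem_filter.1 hb).2 (mem_filter.1 ha').2
        (mem_filter.1 hb').2
  omega

end

end Pool.Agent.FR624
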